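import Pool.Agent.Q275.RT.Stm

/-!
# Project RT (helper275), job PM: isolated primes and products
-/

set_option autoImplicit false

namespace Pool.Agent.Q265.RT

open Finset Pool.Agent.Q275.RT

theorem sum_le_prod (V : Finset ℕ) (h : ∀ v ∈ V, 2 ≤ v) : ∑ v ∈ V, v ≤ ∏ v ∈ V, v := by
  induction V using Finset.induction_on with
  | empty => simp
  | insert a V ha ih =>
    rw [sum_insert ha, prod_insert ha]
    have ih' := ih (fun v hv => h v (mem_insert_of_mem hv))
    have h2 := h a (mem_insert_self a V)
    rcases V.eq_empty_or_nonempty with rfl | ⟨b, hb⟩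
    · simp
    · have hb1 : b ≤ ∑ v ∈ V, v := single_le_sum (f := fun v => v) (fun i _ => Nat.zero_le i) hb
      have hb2 := h b (mem_insert_of_mem hb)
      obtain ⟨P, hP⟩ : ∃ P, P = ∏ v ∈ V, v := ⟨_, rfl⟩
      obtain ⟨S, hS⟩ : ∃ S, S = ∑ v ∈ V, v := ⟨_, rfl⟩
      rw [← hP, ← hS] at ih' ⊢
      rw [← hS] at hb1
      obtain ⟨a', rfl⟩ : ∃ a', a = a' + 2 := ⟨a - 2, by omega⟩
      obtain ⟨P', rfl⟩ : ∃ P', P = P' + 2 := ⟨P - 2, by omega⟩
      nlinarith [Nat.zero_le (a' * P')]

theorem pm (hI : S_ISO) : S_PM := by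
  intro m
  induction m with
  | zero => exact ⟨∅, by simp, rfl, fun U _ _ h => absurd h (Nat.not_lt_zero _)⟩
  | succ m ih =>
    obtain ⟨T', hT', hc, hU'⟩ := ih
    obtain ⟨B, hB⟩ : ∃ B, B = ∏ p ∈ T', p := ⟨_, rfl⟩
    obtain ⟨S, hS⟩ : ∃ S, S = ∑ p ∈ T', p := ⟨_, rfl⟩
    obtain ⟨r, hr, hN, hW, hd⟩ := hI ((m + 1) * B) ((m + 1) * B + S)
    have hrT : r ∉ T' := by
      intro h
      have h1 : r ≤ ∑ v ∈ T', v := single_le_sum (f := fun v => v) (fun i _ => Nat.zero_le i) h
      omega
    have hSB : S ≤ B := by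
      rw [hS, hB]
      exact sum_le_prod T' fun v hv => (hT' v hv).two_le
    have hBW : B ≤ (m + 1) * B := Nat.le_mul_of_pos_left B (Nat.succ_pos m)
    refine ⟨insert r T', ?_, by rw [card_insert_of_notMem hrT, hc], ?_⟩
    · intro p hp
      rcases mem_insert.1 hp with rfl | hp
      · exact hr
      · exact hT' p hp
    · intro U hU hs hcard
      rw [sum_insert hrT, ← hS] at hs
      rw [prod_insert hrT, ← hB]
      have hne : U.Nonempty := by
        by_contra h
        rw [not_nonempty_iff_eq_empty] at h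
        rw [h, sum_empty] at hs
        have := hr.pos
        omega
      obtain ⟨q, hq⟩ : ∃ q, q = U.max' hne := ⟨_, rfl⟩
      have hqU : q ∈ U := by rw [hq]; exact U.max'_mem hne
      have hle : ∀ p ∈ U, p ≤ q := fun p hp => by rw [hq]; exact U.le_max' p hp
      have hqpos : 0 < q := (hU q hqU).pos
      have hprod : ∏ p ∈ U, p = q * ∏ p ∈ U.erase q, p := (mul_prod_erase U (fun p => p) hqU).symm
      have hsum : q + ∑ p ∈ U.erase q, p = r + S := by
        rw [add_sum_erase U (fun p => p) hqU]
        exact hs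
      have hUB := sum_le_prod (U.erase q) fun v hv => (hU v (mem_of_mem_erase hv)).two_le
      rw [hprod]
      by_cases hcase : m * B < ∏ p ∈ U.erase q, p
      · have h1 : ∑ p ∈ U, p ≤ U.card * q := by
          have := sum_le_card_nsmul U (fun p => p) q hle
          rwa [smul_eq_mul] at this
        have h2 : r ≤ m * q := by
          have h3 : U.card * q ≤ m * q := Nat.mul_le_mul_right q (by omega)
          omega
        calc r * B ≤ m * q * B := Nat.mul_le_mul_right B h2
          _ = q * (m * B) := by ring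
          _ < q * ∏ p ∈ U.erase q, p := Nat.mul_lt_mul_of_pos_left hcase hqpos
      · have hcase' : ∏ p ∈ U.erase q, p ≤ m * B := not_lt.1 hcase
        have h5 : m * B ≤ (m + 1) * B := Nat.mul_le_mul_right B (Nat.le_succ m)
        rcases lt_trichotomy (∑ p ∈ U.erase q, p) S with h | h | h
        · exfalso
          apply (hd (S - ∑ p ∈ U.erase q, p) (by omega) (by omega)).1
          have h6 : r + (S - ∑ p ∈ U.erase q, p) = q := by omega
          rw [h6]
          exact hU q hqU
        · have hqr : q = r := by omega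
          have hcard' : (U.erase q).card < m := by
            rw [card_erase_of_mem hqU]
            have := card_pos.2 hne
            omega
          have h7 := hU' (U.erase q) (fun p hp => hU p (mem_of_mem_erase hp)) (by rw [h, hS]) hcard'
          rw [← hB] at h7
          calc r * B < r * ∏ p ∈ U.erase q, p := Nat.mul_lt_mul_of_pos_left h7 hr.pos
            _ = q * ∏ p ∈ U.erase q, p := by rw [hqr]
        · exfalso
          apply (hd (∑ p ∈ U.erase q, p - S) (by omega) (by omega)).2
          have h6 : r - (∑ p ∈ U.erase q, p - S) = q := by omega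
          rw [h6]
          exact hU q hqU

end Pool.Agent.Q265.RT
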